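import Pool.Agent.KK.StmtsB2
import Pool.Agent.KK.BBasic

/-!
# Squad KK, row B_CLU: the class of all states is indecomposable
-/

set_option autoImplicit false

open scoped BigOperators

namespace Pool.Agent.KK.B.H65

open Function
open scoped Classical

theorem clu (aug : AugStmt) (cnv : CnvStmt) (cnc : CncStmt) : CluStmt := by
  intro d V _ _ _ H c0 ν β ε hU hDi hε hβ hc0 htriv D _
  have hn : (0 : ℝ) < Fintype.card V := by exact_mod_cast Fintype.card_pos
  have hpow : (0 : ℝ) < (Fintype.card V : ℝ) ^ (d + 2) := by positivity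
  have hpow1 : (0 : ℝ) < (Fintype.card V : ℝ) ^ (d + 1) := by positivity
  by_cases h : ε * (Fintype.card V : ℝ) ^ (d + 2) ≤
      ({p : Sta V d × Sta V d | p.1 ∈ D ∧ p.2 ∈ Set.univ \ D ∧ St H p.1 p.2}.ncard : ℝ)
  · exact Or.inl h
  right
  have h1 : stp H D (Set.univ \ D) < ε * (Fintype.card V : ℝ) ^ (d + 2) := not_le.1 h
  have h2 : stp H (Set.univ : Set (Sta V d)) (Set.univ : Set (Sta V d))ᶜ = 0 := by
    unfold stp
    have h3 : {p : Sta V d × Sta V d | p.1 ∈ (Set.univ : Set (Sta V d)) ∧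
        p.2 ∈ (Set.univ : Set (Sta V d))ᶜ ∧ St H p.1 p.2} = ∅ := by
      ext p
      constructor
      · rintro ⟨-, h4, -⟩
        exact absurd (Set.mem_univ _) h4
      · intro h4
        exact absurd h4 (Set.notMem_empty _)
    rw [h3, Set.ncard_empty, Nat.cast_zero]
  have h3 := cnc d V H Set.univ hU D (Set.subset_univ _)
  have h4 : dens (fun e => LE H e ∧ ¬ Mono (sys D) e) ≤ ε := by
    refine le_of_mul_le_mul_right ?_ hpow
    linarith
  obtain ⟨-, -, haug⟩ := aug d V H hU hDi
  have hcl : Closed (augE H) c0 (sys D) := by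
    unfold Closed
    exact (haug (fun e => ¬ Mono (sys D) e)).trans (by linarith)
  obtain ⟨hcnv, -⟩ := cnv d V H hU
  have hsum : ∀ A : Set (Sta V d), (∀ i, dens (sys A i) ≤ ν) →
      (A.ncard : ℝ) ≤ β * (Fintype.card V : ℝ) ^ (d + 1) := by
    intro A hA
    rw [(hcnv A).2]
    refine mul_le_mul_of_nonneg_right ?_ hpow1.le
    calc ∑ i, dens (sys A i) ≤ ∑ _i : Fin (d + 2), ν := Finset.sum_le_sum fun i _ => hA i
      _ = ((d : ℝ) + 2) * ν := by
        rw [Finset.sum_const, Finset.card_univ, Fintype.card_fin, nsmul_eq_mul]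
        push_cast
        ring
      _ ≤ β := hβ
  rcases htriv (sys D) (hcnv D).1 hcl with ht | ht
  · exact Or.inl (hsum D ht)
  · right
    refine hsum _ fun i => ?_
    refine le_trans (le_of_eq ?_) (ht i)
    refine dens_congr fun a => ?_
    unfold sys
    exact ⟨fun h => h.2, fun h => ⟨Set.mem_univ _, h⟩⟩

end Pool.Agent.KK.B.H65
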