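import Pool.Agent.KK.StmtsW

/-!
# Squad KK, row LOR: loops from right moves
-/

set_option autoImplicit false

open scoped BigOperators

namespace Pool.Agent.KK.H65L

open Pool.Agent.KK

theorem wt_le (u : List Bool) : wt u ≤ u.length := List.count_le_length

theorem wt_append (u v : List Bool) : wt (u ++ v) = wt u + wt v := List.count_append

theorem wt_reverse (u : List Bool) : wt u.reverse = wt u := List.count_reverse

theorem pl_le {V : Type} [Fintype V] [DecidableEq V] {H : Finset (Finset V)} {X : Finset V}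
    {k p : ℕ} {ε : ℝ} {K : ℕ} {u v : List Bool} {N a q : ℕ} (h : Pl V H X k p ε K u v N a q) :
    a ≤ N := by
  induction h with
  | nil _ => exact le_rfl
  | letter v N a q b _ _ ih =>
    have h1 := wt_le [b]
    simp only [List.length_cons, List.length_nil] at h1
    omega
  | gadget v N a q c uR _ _ _ h3 _ ih =>
    have h1 := wt_le c
    have h2 := wt_le uR
    omega

theorem per_mod (w : List Bool) (a m : ℕ) : per w (a % w.length) m = per w a m := by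
  unfold per
  refine List.map_congr_left fun i _ => ?_
  rw [Nat.mod_add_mod]

theorem exists_res {k C r : ℕ} (hk : 0 < k) (hr : r < k) : ∃ ρ < k, (C + ρ) % k = r := by
  have h0 := Nat.mod_lt C hk
  have h1 := Nat.div_add_mod C k
  by_cases h : C % k ≤ r
  · refine ⟨r - C % k, by omega, ?_⟩
    have h2 : C + (r - C % k) = k * (C / k) + r := by omega
    rw [h2, Nat.mul_add_mod, Nat.mod_eq_of_lt hr]
  · refine ⟨r + k - C % k, by omega, ?_⟩
    have h2 : C + (r + k - C % k) = k * (C / k + 1) + r := by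
      rw [mul_add, mul_one]
      omega
    rw [h2, Nat.mul_add_mod, Nat.mod_eq_of_lt hr]

/-- the bound -/
def BB (k : ℕ) : ℕ := 12 * k ^ 3 + 9 * k + 4 * k ^ 2 + 2

section core

variable {V : Type} [Fintype V] [DecidableEq V] {H : Finset (Finset V)} {X : Finset V}
  {k p : ℕ} {ε : ℝ} {K : ℕ}

/-- rotation of a word -/
theorem rot (per_ : PerStmt) (pwt : PwtStmt) {w : List Bool} (hk : 1 ≤ k) (hw : w.length = k)
    (hp : wt w % 2 = p) (ρ : ℕ) : ∃ a, Pl V H X k p ε K (per w 0 (k - 1))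
      (per (per w ρ k) 0 (k - 1)) ρ a 0 ∧ (per w ρ k).length = k ∧ wt (per w ρ k) = wt w := by
  obtain ⟨h1, h2, h3, h4, h5, h6, h7⟩ := pwt
  have h := per_ V H X k p ε K w 0 ρ hk hw hp
  have e1 : per (per w ρ k) 0 (k - 1) = per w (0 + ρ) (k - 1) := by
    have := h5 w ρ 0 (k - 1) (by omega)
    rw [hw] at this
    rw [this, add_zero, zero_add]
  have e2 : wt (per w ρ k) = wt w := by
    have := h1 w ρ
    rw [hw] at this
    exact this
  rw [← e1] at h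
  exact ⟨_, h, h3 w ρ k, e2⟩

theorem core_s (rcon : RconStmt) (per_ : PerStmt) (tra : TraStmt) (pwt : PwtStmt)
    {s j : ℕ} {S W₁ W₂ : List Bool} {Nu au Nd ad : ℕ} (hk : 3 ≤ k) (hs : s + 1 = j)
    (hjk : j + 2 ≤ k) (hjp : (j + 1) % 2 = p) (hR : RMoves H X k ε K (j + 1))
    (hW₁ : W₁.length = k) (hW₂ : W₂.length = k) (hw₁ : wt W₁ = j + 1) (hw₂ : wt W₂ = j + 1)
    (hU : Pl V H X k p ε K S (per W₁ 0 (k - 1)) Nu au 1)
    (hD : Pl V H X k p ε K (per W₂ 0 (k - 1)) S Nd ad 1) (hNu : Nu ≤ 4 * k) (hNd : Nd ≤ 4 * k)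
    (r δ : ℕ) (hr : r < k) (hδ : δ < 2) :
    ∃ N₁ a₁ q₁ N₂ a₂ q₂ : ℕ, N₁ + N₂ ≤ BB k ∧ q₁ + q₂ ≤ BB k ∧
      a₁ + a₂ ≤ BB k ∧ (N₁ + N₂) % k = r ∧ (a₁ + a₂ + s * ((N₁ + N₂) / k)) % 2 = δ ∧
      Pl V H X k p ε K S (per W₁ 0 (k - 1)) N₁ a₁ q₁ ∧
      Pl V H X k p ε K (per W₁ 0 (k - 1)) S N₂ a₂ q₂ := by
  have hk0 : 0 < k := by omega
  obtain ⟨ρ, hρk, hρ⟩ := exists_res (C := Nu + Nd) hk0 hr
  obtain ⟨aρ, hrot, hl, hwt⟩ := rot (V := V) (H := H) (X := X) (p := p) (ε := ε) (K := K) per_ pwt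
    (w := W₁) (by omega) hW₁ (by rw [hw₁]; exact hjp) ρ
  obtain ⟨M, a, e, q, hq, hM, hae, he, heδ, hpl⟩ := rcon V H X k p (j + 1) ε K (per W₁ ρ k) W₂
    ((au + ad + aρ + s * ((Nu + Nd + ρ) / k) + δ) % 2) (by omega) (by omega) (by omega) hjp hR hl
    hW₂ (by rw [hwt, hw₁]) hw₂ (Nat.mod_lt _ (by norm_num))
  have hback := tra V H X k p ε K _ _ _ _ _ _ _ _ _ hrot
    (tra V H X k p ε K _ _ _ _ _ _ _ _ _ hpl hD)
  have hMk : k * M ≤ 6 * k ^ 3 := by
    calc k * M ≤ k * (6 * k ^ 2) := Nat.mul_le_mul_left _ hM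
      _ = 6 * k ^ 3 := by ring
  have hN : Nu + (ρ + (k * M + Nd)) ≤ BB k := by
    unfold BB
    have : 0 ≤ k ^ 3 := Nat.zero_le _
    have : 0 ≤ k ^ 2 := Nat.zero_le _
    omega
  have hqq : 1 + (0 + (q + 1)) ≤ BB k := by
    unfold BB
    omega
  have ha1 := pl_le hU
  have ha2 := pl_le hback
  refine ⟨Nu, au, 1, _, _, _, hN, hqq, by omega, ?_, ?_, hU, hback⟩
  · have e1 : Nu + (ρ + (k * M + Nd)) = k * M + (Nu + Nd + ρ) := by ring
    rw [e1, Nat.mul_add_mod, hρ]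
  · have e1 : Nu + (ρ + (k * M + Nd)) = (Nu + Nd + ρ) + k * M := by ring
    rw [e1, Nat.add_mul_div_left _ _ hk0]
    obtain ⟨D, hDd⟩ : ∃ D, D = (Nu + Nd + ρ) / k := ⟨_, rfl⟩
    rw [← hDd] at heδ ⊢
    obtain ⟨P, hP⟩ : ∃ P, P = s * M := ⟨_, rfl⟩
    have h1 : (j + 1) * M = P + 2 * M := by
      rw [hP, ← hs]
      ring
    have h2 : s * (D + M) = s * D + P := by rw [hP]; ring
    rw [h2]
    rw [h1] at hae
    omega

theorem core_t (rcon : RconStmt) (per_ : PerStmt) (tra : TraStmt) (pwt : PwtStmt)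
    {s j : ℕ} {S W₁ W₂ T : List Bool} {Nu au Nd ad : ℕ} (hk : 3 ≤ k) (hs : s + 1 = j)
    (hjk : j + 2 ≤ k) (hjp : (j + 1) % 2 = p) (hR : RMoves H X k ε K (j + 1))
    (hW₁ : W₁.length = k) (hW₂ : W₂.length = k) (hw₁ : wt W₁ = j + 1) (hw₂ : wt W₂ = j + 1)
    (hT : T.length = k) (hwT : wt T = j + 1)
    (hU : Pl V H X k p ε K S (per W₁ 0 (k - 1)) Nu au 1)
    (hD : Pl V H X k p ε K (per W₂ 0 (k - 1)) S Nd ad 1) (hNu : Nu ≤ 4 * k) (hNd : Nd ≤ 4 * k)
    (r δ : ℕ) (hr : r < k) (hδ : δ < 2) :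
    ∃ N₁ a₁ q₁ N₂ a₂ q₂ : ℕ, N₁ + N₂ ≤ BB k ∧ q₁ + q₂ ≤ BB k ∧
      a₁ + a₂ ≤ BB k ∧ (N₁ + N₂) % k = r ∧ (a₁ + a₂ + (j + 1) * ((N₁ + N₂) / k)) % 2 = δ ∧
      Pl V H X k p ε K (per T 0 (k - 1)) S N₁ a₁ q₁ ∧
      Pl V H X k p ε K S (per T 0 (k - 1)) N₂ a₂ q₂ := by
  have hk0 : 0 < k := by omega
  obtain ⟨ρ, hρk, hρ⟩ := exists_res (C := Nu + Nd) hk0 hr
  obtain ⟨aρ, hrot, hl, hwt⟩ := rot (V := V) (H := H) (X := X) (p := p) (ε := ε) (K := K) per_ pwt
    (w := W₁) (by omega) hW₁ (by rw [hw₁]; exact hjp) ρ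
  obtain ⟨M', a', e', q', hq', hM', hae', he', heδ', hpl'⟩ := rcon V H X k p (j + 1) ε K
    (per W₁ ρ k) T 0 (by omega) (by omega) (by omega) hjp hR hl
    hT (by rw [hwt, hw₁]) hwT (by norm_num)
  obtain ⟨M, a, e, q, hq, hM, hae, he, heδ, hpl⟩ := rcon V H X k p (j + 1) ε K T W₂
    ((au + ad + aρ + (j + 1) * ((Nu + Nd + ρ) / k) + δ) % 2) (by omega) (by omega) (by omega) hjp
    hR hT hW₂ hwT hw₂ (Nat.mod_lt _ (by norm_num))
  have hdown := tra V H X k p ε K _ _ _ _ _ _ _ _ _ hpl hD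
  have hup := tra V H X k p ε K _ _ _ _ _ _ _ _ _ hU
    (tra V H X k p ε K _ _ _ _ _ _ _ _ _ hrot hpl')
  have hMk : k * M ≤ 6 * k ^ 3 := by
    calc k * M ≤ k * (6 * k ^ 2) := Nat.mul_le_mul_left _ hM
      _ = 6 * k ^ 3 := by ring
  have hMk' : k * M' ≤ 6 * k ^ 3 := by
    calc k * M' ≤ k * (6 * k ^ 2) := Nat.mul_le_mul_left _ hM'
      _ = 6 * k ^ 3 := by ring
  have hN : k * M + Nd + (Nu + (ρ + k * M')) ≤ BB k := by
    unfold BB
    omega
  have hqq : q + 1 + (1 + (0 + q')) ≤ BB k := by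
    unfold BB
    omega
  have ha1 := pl_le hdown
  have ha2 := pl_le hup
  refine ⟨_, _, _, _, _, _, hN, hqq, by omega, ?_, ?_, hdown, hup⟩
  · have e1 : k * M + Nd + (Nu + (ρ + k * M')) = k * (M + M') + (Nu + Nd + ρ) := by ring
    rw [e1, Nat.mul_add_mod, hρ]
  · have e1 : k * M + Nd + (Nu + (ρ + k * M')) = (Nu + Nd + ρ) + k * (M + M') := by ring
    rw [e1, Nat.add_mul_div_left _ _ hk0]
    obtain ⟨D, hDd⟩ : ∃ D, D = (Nu + Nd + ρ) / k := ⟨_, rfl⟩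
    rw [← hDd] at heδ ⊢
    obtain ⟨P, hP⟩ : ∃ P, P = (j + 1) * M := ⟨_, rfl⟩
    obtain ⟨P', hP'⟩ : ∃ P', P' = (j + 1) * M' := ⟨_, rfl⟩
    have h2 : (j + 1) * (D + (M + M')) = (j + 1) * D + P + P' := by rw [hP, hP']; ring
    rw [h2]
    rw [← hP] at hae
    rw [← hP'] at hae'
    omega

end core

theorem lor (rcon : RconStmt) (per_ : PerStmt) (tra : TraStmt) (srv : SrvStmt) (blr : BlrStmt)
    (pwt : PwtStmt) (glu : GluStmt) : LorStmt := by
  intro k hk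
  obtain ⟨K₀, hB, hglu⟩ := glu k (BB k) (by omega)
  refine ⟨K₀, ?_⟩
  intro V _ _ H X p ε K j hj hjk' hjp hKR
  obtain ⟨hjk, hR, α, c, uR, hc1, hc2, huR, hwR, hSup⟩ := hKR
  obtain ⟨s, hs⟩ : ∃ s, s + 1 = j := ⟨j - 1, by omega⟩
  have hjs : j - 1 = s := by omega
  rw [hjs] at hSup ⊢
  have hsp : s % 2 = p := by omega
  have hblk := blr k s (by omega) (by omega)
  have hblkT := blr k (j + 1) (by omega) (by omega)
  obtain ⟨hrev, -, hlen, hwt⟩ := hblk
  obtain ⟨-, -, hlenT, hwtT⟩ := hblkT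
  have hk1 : 1 ≤ k := by omega
  -- the words of level `j + 1`
  obtain ⟨b, hb⟩ : ∃ b : Bool, wt uR + wt [b] = j + 1 := by
    rcases hwR with h | h
    · refine ⟨true, ?_⟩
      have : wt [true] = 1 := rfl
      omega
    · refine ⟨false, ?_⟩
      have : wt [false] = 0 := rfl
      omega
  have hW₁ : (uR ++ [b]).length = k := by
    rw [List.length_append, huR, List.length_singleton]
    omega
  have hW₂ : (uR.reverse ++ [b]).length = k := by
    rw [List.length_append, List.length_reverse, huR, List.length_singleton]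
    omega
  have hw₁ : wt (uR ++ [b]) = j + 1 := by rw [wt_append]; exact hb
  have hw₂ : wt (uR.reverse ++ [b]) = j + 1 := by rw [wt_append, wt_reverse]; exact hb
  have hp₁ : per (uR ++ [b]) 0 (k - 1) = uR := by
    rw [pwt.2.2.2.2.2.1 _ _ (by omega), ← huR, List.take_left']
    rfl
  have hp₂ : per (uR.reverse ++ [b]) 0 (k - 1) = uR.reverse := by
    rw [pwt.2.2.2.2.2.1 _ _ (by omega)]
    have : k - 1 = uR.reverse.length := by rw [List.length_reverse, huR]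
    rw [this, List.take_left']
    rfl
  -- crossing upwards
  obtain ⟨Nu, au, hNu, hU⟩ : ∃ Nu au, Nu ≤ 4 * k ∧
      Pl V H X k p ε K (per (blk k s) 0 (k - 1)) (per (uR ++ [b]) 0 (k - 1)) Nu au 1 := by
    have h1 := per_ V H X k p ε K (blk k s) 0 (α % k) hk1 hlen (by rw [hwt]; exact hsp)
    have e1 : per (blk k s) (0 + α % k) (k - 1) = per (blk k s) α (k - 1) := by
      rw [zero_add]
      have := per_mod (blk k s) α (k - 1)
      rwa [hlen] at this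
    rw [e1] at h1
    have h2 := Pl.gadget _ _ _ _ _ c uR h1 hc1 hc2 huR hSup
    rw [hp₁]
    have h3 := Nat.mod_lt α (show 0 < k by omega)
    exact ⟨_, _, by omega, h2⟩
  -- crossing downwards
  obtain ⟨Nd, ad, hNd, hD⟩ : ∃ Nd ad, Nd ≤ 4 * k ∧
      Pl V H X k p ε K (per (uR.reverse ++ [b]) 0 (k - 1)) (per (blk k s) 0 (k - 1)) Nd ad 1 := by
    obtain ⟨β, hβ⟩ := hrev α (k - 1)
    have h1 := srv V H X k ε K _ _ _ hSup
    have h2 : Pl V H X k p ε K uR.reverse uR.reverse 0 0 0 :=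
      Pl.nil _ (by rw [List.length_reverse, huR])
    have h3 := Pl.gadget _ _ _ _ _ c.reverse _ h2 (by rw [List.length_reverse]; exact hc1)
      (by rw [List.length_reverse]; exact hc2)
      (by rw [List.length_reverse, pwt.2.2.1]) h1
    rw [hβ] at h3
    have h4 := per_ V H X k p ε K (blk k s) (β % k) (k - β % k) hk1 hlen
      (by rw [hwt]; exact hsp)
    have h5 := Nat.mod_lt β (show 0 < k by omega)
    have e1 : per (blk k s) (β % k) (k - 1) = per (blk k s) β (k - 1) := by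
      have := per_mod (blk k s) β (k - 1)
      rwa [hlen] at this
    have e2 : per (blk k s) (β % k + (k - β % k)) (k - 1) = per (blk k s) 0 (k - 1) := by
      have h6 : β % k + (k - β % k) = 0 + (blk k s).length := by rw [hlen]; omega
      rw [h6, pwt.2.1]
    rw [e1, e2] at h4
    have h7 := tra V H X k p ε K _ _ _ _ _ _ _ _ _ h3 h4
    rw [hp₂]
    refine ⟨_, _, ?_, h7⟩
    rw [List.length_reverse]
    omega
  refine ⟨?_, ?_⟩
  · refine hglu V H X p ε K j s (j + 1) (uR ++ [b]) (Or.inl ⟨hs, rfl⟩) hjk' hsp hW₁ hw₁ ?_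
    intro r δ hr hδ
    exact core_s rcon per_ tra pwt hk hs hjk hjp hR hW₁ hW₂ hw₁ hw₂ hU hD hNu hNd r δ hr hδ
  · refine hglu V H X p ε K j (j + 1) s (blk k s) (Or.inr ⟨rfl, hs⟩) hjk' hjp hlen hwt ?_
    intro r δ hr hδ
    exact core_t rcon per_ tra pwt hk hs hjk hjp hR hW₁ hW₂ hw₁ hw₂ hlenT hwtT hU hD hNu hNd
      r δ hr hδ

end Pool.Agent.KK.H65L
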