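import Pool.Agent.KK.StmtsD

/-!
# Squad KK, row TIM: a class which is invariant under time shifts
-/

set_option autoImplicit false

open scoped BigOperators

namespace Pool.Agent.KK.H65

open Pool.Agent.KK

theorem xc_cons {V : Type} [Fintype V] [DecidableEq V] (X : Finset V) {m : ℕ} (v : V)
    (f : Fin m → V) :
    xc X (Fin.cons v f : Fin (m + 1) → V) = (if v ∈ X then 1 else 0) + xc X f := by
  unfold xc
  rw [Finset.card_filter, Finset.card_filter, Fin.sum_univ_succ]
  rfl

theorem image_cons {V : Type} [Fintype V] [DecidableEq V] {m : ℕ} (v : V)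
    (f : Fin m → V) :
    Finset.univ.image (Fin.cons v f : Fin (m + 1) → V) = insert v (Finset.univ.image f) := by
  ext x
  rw [Finset.mem_insert, Finset.mem_image, Finset.mem_image]
  constructor
  · rintro ⟨i, -, hi⟩
    refine Fin.cases (fun h => Or.inl h.symm) (fun j h => Or.inr ⟨j, Finset.mem_univ _, h⟩) i hi
  · rintro (h | ⟨j, -, h⟩)
    · exact ⟨0, Finset.mem_univ _, h.symm⟩
    · exact ⟨j.succ, Finset.mem_univ _, h⟩

theorem xc_le {V : Type} [Fintype V] [DecidableEq V] (X : Finset V) {m : ℕ} (f : Fin m → V) :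
    xc X f ≤ m := by
  unfold xc
  refine (Finset.card_filter_le _ _).trans ?_
  rw [Finset.card_univ, Fintype.card_fin]

theorem tim : TimStmt := by
  classical
  intro d V _ _ H X q a b μ γ μ' κ hn hU hγ hγ6 hlt hμ' hS hE
  by_contra hcon
  push Not at hcon
  have hn' : (0 : ℝ) < Fintype.card V := by exact_mod_cast hn
  -- the runs are single types
  have hab : ∀ i < q, a i = b i := fun i hi => le_antisymm (hS.le i hi) ((hcon i hi).1)
  have hq := hS.two_le
  have ha : ∀ i < q, a i = 2 * i + 1 := by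
    intro i
    induction i with
    | zero =>
      intro h
      have h1 := hS.first
      have h2 := (hcon 0 h).2.1
      have h3 := hab 0 h
      omega
    | succ i ih =>
      intro h
      have h1 := ih (by omega)
      have h2 := hS.gap i h
      have h3 := hab i (by omega)
      omega
  -- all even types are missing
  have hmiss : ∀ j ≤ d + 2, Even j →
      (td H (d + 2) X j : ℝ) ≤ γ * (Fintype.card V : ℝ) ^ (d + 2) := by
    intro j hj hj2
    refine hS.miss j hj fun i hi h => ?_
    have h1 := ha i hi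
    have h2 := hab i hi
    obtain ⟨m, hm⟩ := hj2
    omega
  -- the bad labelled edges
  obtain ⟨B, hB⟩ : ∃ B : Finset (Fin (d + 2) → V),
      B = Finset.univ.filter fun e => Finset.univ.image e ∈ H ∧ Even (xc X e) := ⟨_, rfl⟩
  have hBc : (B.card : ℝ) ≤ (d + 3) * (γ * (Fintype.card V : ℝ) ^ (d + 2)) := by
    have h1 : B ⊆ ((Finset.range (d + 3)).filter Even).biUnion fun j =>
        Finset.univ.filter fun e : Fin (d + 2) → V => Finset.univ.image e ∈ H ∧ xc X e = j := by
      intro e he
      rw [hB, Finset.mem_filter] at he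
      rw [Finset.mem_biUnion]
      refine ⟨xc X e, ?_, ?_⟩
      · rw [Finset.mem_filter, Finset.mem_range]
        exact ⟨by have := xc_le X e; omega, he.2.2⟩
      · rw [Finset.mem_filter]
        exact ⟨Finset.mem_univ _, he.2.1, rfl⟩
    have h2 : (B.card : ℝ) ≤ ∑ j ∈ (Finset.range (d + 3)).filter Even,
        (td H (d + 2) X j : ℝ) := by
      have h3 := (Finset.card_le_card h1).trans Finset.card_biUnion_le
      have h4 : ∀ j, (Finset.univ.filter fun e : Fin (d + 2) → V =>
          Finset.univ.image e ∈ H ∧ xc X e = j).card = td H (d + 2) X j := by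
        intro j
        unfold td
        rw [Set.ncard_eq_toFinset_card']
        congr 1
        ext e
        rw [Finset.mem_filter, Set.mem_toFinset]
        exact ⟨fun h => h.2, fun h => ⟨Finset.mem_univ _, h⟩⟩
      simp only [h4] at h3
      exact_mod_cast h3
    refine h2.trans ?_
    calc ∑ j ∈ (Finset.range (d + 3)).filter Even, (td H (d + 2) X j : ℝ)
        ≤ ∑ _j ∈ (Finset.range (d + 3)).filter Even, γ * (Fintype.card V : ℝ) ^ (d + 2) := by
          refine Finset.sum_le_sum fun j hj => ?_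
          rw [Finset.mem_filter, Finset.mem_range] at hj
          exact hmiss j (by omega) hj.2
      _ = (((Finset.range (d + 3)).filter Even).card : ℝ) *
          (γ * (Fintype.card V : ℝ) ^ (d + 2)) := by rw [Finset.sum_const, nsmul_eq_mul]
      _ ≤ ((d : ℝ) + 3) * (γ * (Fintype.card V : ℝ) ^ (d + 2)) := by
          refine mul_le_mul_of_nonneg_right ?_ (by positivity)
          have h5 : ((Finset.range (d + 3)).filter Even).card ≤ d + 3 := by
            refine (Finset.card_filter_le _ _).trans ?_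
            rw [Finset.card_range]
          exact_mod_cast h5
  -- the exchange pairs
  have hcard : (X.card : ℝ) + (Xᶜ.card : ℝ) = Fintype.card V := by
    exact_mod_cast Finset.card_add_card_compl X
  have hbal := abs_le.1 hS.bal
  have hγn : γ * (Fintype.card V : ℝ) ≤ 1 / 6 * Fintype.card V :=
    mul_le_mul_of_nonneg_right hγ6 hn'.le
  have hX1 : 1 / 18 * (Fintype.card V : ℝ) ≤ ((X : Set V).ncard : ℝ) := by
    rw [Set.ncard_coe_finset]
    linarith [hbal.1]
  have hX2 : 1 / 18 * (Fintype.card V : ℝ) ≤ ((X : Set V)ᶜ.ncard : ℝ) := by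
    rw [← Finset.coe_compl, Set.ncard_coe_finset]
    linarith [hbal.2]
  have hP := hE (X : Set V) hX1 hX2
  obtain ⟨P, hPd⟩ : ∃ P : Finset (V × V), P = Finset.univ.filter fun p : V × V =>
      p.1 ∈ (X : Set V) ∧ p.2 ∉ (X : Set V) ∧
        μ' * (Fintype.card V : ℝ) ^ (d + 2 - 1) ≤ comm H (d + 2) p.1 p.2 := ⟨_, rfl⟩
  have hP' : κ * (Fintype.card V : ℝ) ^ 2 ≤ (P.card : ℝ) := by
    have h1 : {p : V × V | p.1 ∈ (X : Set V) ∧ p.2 ∉ (X : Set V) ∧
        μ' * (Fintype.card V : ℝ) ^ (d + 2 - 1) ≤ comm H (d + 2) p.1 p.2}.ncard = P.card := by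
      rw [← Set.ncard_coe_finset, hPd]
      congr 1
      ext p
      rw [Finset.coe_filter]
      exact ⟨fun h => ⟨Finset.mem_univ _, h⟩, fun h => h.2⟩
    rw [h1] at hP
    exact hP
  -- the common link tuples
  obtain ⟨cm, hcm⟩ : ∃ cm : V × V → Finset (Fin (d + 1) → V), cm = fun p =>
      Finset.univ.filter fun f => p.1 ∉ Finset.univ.image f ∧ p.2 ∉ Finset.univ.image f ∧
        insert p.1 (Finset.univ.image f) ∈ H ∧ insert p.2 (Finset.univ.image f) ∈ H := ⟨_, rfl⟩
  have hcmc : ∀ p ∈ P, μ' * (Fintype.card V : ℝ) ^ (d + 1) ≤ ((cm p).card : ℝ) := by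
    intro p hp
    rw [hPd, Finset.mem_filter] at hp
    have h1 : comm H (d + 2) p.1 p.2 = (cm p).card := by
      rw [← Set.ncard_coe_finset, hcm]
      unfold comm
      congr 1
      ext f
      rw [Finset.coe_filter]
      exact ⟨fun h => ⟨Finset.mem_univ _, h⟩, fun h => h.2⟩
    rw [← h1]
    exact hp.2.2.2
  have hT : (P.card : ℝ) * (μ' * (Fintype.card V : ℝ) ^ (d + 1)) ≤
      ((P.sigma cm).card : ℝ) := by
    rw [Finset.card_sigma]
    push_cast
    calc (P.card : ℝ) * (μ' * (Fintype.card V : ℝ) ^ (d + 1))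
        = ∑ _p ∈ P, μ' * (Fintype.card V : ℝ) ^ (d + 1) := by
          rw [Finset.sum_const, nsmul_eq_mul]
      _ ≤ ∑ p ∈ P, ((cm p).card : ℝ) := Finset.sum_le_sum hcmc
  -- the injection
  have hinj : (P.sigma cm).card ≤
      ((Finset.univ : Finset Bool) ×ˢ ((Finset.univ : Finset V) ×ˢ B)).card := by
    refine Finset.card_le_card_of_injOn (fun t : (_ : V × V) × (Fin (d + 1) → V) =>
      if Even (xc X t.2) then (true, t.1.1, (Fin.cons t.1.2 t.2 : Fin (d + 2) → V))
      else (false, t.1.2, (Fin.cons t.1.1 t.2 : Fin (d + 2) → V))) ?_ ?_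
    · rintro ⟨⟨u, v⟩, f⟩ ht
      have ht' := Finset.mem_sigma.1 (Finset.mem_coe.1 ht)
      have h1 := ht'.1
      have h2 := ht'.2
      rw [hPd, Finset.mem_filter] at h1
      rw [hcm] at h2
      have h2' := (Finset.mem_filter.1 h2).2
      have hu : u ∈ X := h1.2.1
      have hv : v ∉ X := h1.2.2.1
      by_cases hev : Even (xc X f)
      · simp only [hev, if_true]
        refine Finset.mem_coe.2 (Finset.mem_product.2 ⟨Finset.mem_univ _,
          Finset.mem_product.2 ⟨Finset.mem_univ _, ?_⟩⟩)
        rw [hB]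
        refine Finset.mem_filter.2 ⟨Finset.mem_univ _, ?_, ?_⟩
        · rw [image_cons]
          exact h2'.2.2.2
        · rw [xc_cons, if_neg hv, zero_add]
          exact hev
      · simp only [hev, if_false]
        refine Finset.mem_coe.2 (Finset.mem_product.2 ⟨Finset.mem_univ _,
          Finset.mem_product.2 ⟨Finset.mem_univ _, ?_⟩⟩)
        rw [hB]
        refine Finset.mem_filter.2 ⟨Finset.mem_univ _, ?_, ?_⟩
        · rw [image_cons]
          exact h2'.2.2.1
        · rw [xc_cons, if_pos hu]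
          rw [Nat.not_even_iff_odd] at hev
          exact Odd.one_add hev
    · rintro ⟨⟨u, v⟩, f⟩ _ ⟨⟨u', v'⟩, f'⟩ _ h
      by_cases hev : Even (xc X f) <;> by_cases hev' : Even (xc X f')
      · simp only [hev, hev', if_true, Prod.mk.injEq, true_and] at h
        obtain ⟨h1, h2⟩ := h
        have h3 := Fin.cons_injective2 h2
        obtain ⟨h3, h4⟩ := h3
        subst h1 h3 h4
        rfl
      · simp only [hev, hev', if_true, if_false, Prod.mk.injEq] at h
        exact absurd h.1 (by decide)
      · simp only [hev, hev', if_true, if_false, Prod.mk.injEq] at h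
        exact absurd h.1 (by decide)
      · simp only [hev, hev', if_false, Prod.mk.injEq, true_and] at h
        obtain ⟨h1, h2⟩ := h
        have h3 := Fin.cons_injective2 h2
        obtain ⟨h3, h4⟩ := h3
        subst h1 h3 h4
        rfl
  have hprod : ((Finset.univ : Finset Bool) ×ˢ ((Finset.univ : Finset V) ×ˢ B)).card =
      2 * (Fintype.card V * B.card) := by
    rw [Finset.card_product, Finset.card_product, Finset.card_univ, Finset.card_univ,
      Fintype.card_bool]
  have hinj' : ((P.sigma cm).card : ℝ) ≤ 2 * (Fintype.card V * B.card) := by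
    rw [hprod] at hinj
    exact_mod_cast hinj
  -- the contradiction
  have h1 : κ * (Fintype.card V : ℝ) ^ 2 * (μ' * (Fintype.card V : ℝ) ^ (d + 1)) ≤
      2 * (Fintype.card V * ((d + 3) * (γ * (Fintype.card V : ℝ) ^ (d + 2)))) := by
    calc κ * (Fintype.card V : ℝ) ^ 2 * (μ' * (Fintype.card V : ℝ) ^ (d + 1))
        ≤ (P.card : ℝ) * (μ' * (Fintype.card V : ℝ) ^ (d + 1)) :=
          mul_le_mul_of_nonneg_right hP' (by positivity)
      _ ≤ ((P.sigma cm).card : ℝ) := hT
      _ ≤ 2 * (Fintype.card V * B.card) := hinj'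
      _ ≤ _ := by gcongr
  have h2 : 0 < (Fintype.card V : ℝ) ^ (d + 3) := by positivity
  have h3 : κ * μ' * (Fintype.card V : ℝ) ^ (d + 3) ≤
      2 * (d + 3) * γ * (Fintype.card V : ℝ) ^ (d + 3) := by
    calc κ * μ' * (Fintype.card V : ℝ) ^ (d + 3)
        = κ * (Fintype.card V : ℝ) ^ 2 * (μ' * (Fintype.card V : ℝ) ^ (d + 1)) := by ring
      _ ≤ 2 * (Fintype.card V * ((d + 3) * (γ * (Fintype.card V : ℝ) ^ (d + 2)))) := h1
      _ = 2 * (d + 3) * γ * (Fintype.card V : ℝ) ^ (d + 3) := by ring
  exact absurd (le_of_mul_le_mul_right h3 h2) (not_le.2 hlt)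

end Pool.Agent.KK.H65
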